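import Pool.Agent.E8helper24.HP.Exact

/-!
# The algebraic Sato-Tate conjecture: an explicit quantization law for the invariants of the
# `ℓ`-adic monodromy group

Let `k` be a finitely generated field, embedded in the field of complex numbers, `Γ` its absolute
Galois group, and consider the cohomology `H(Y(ℂ), ℚ)` of the smooth projective varieties `Y` over
`k`. For each prime number `ℓ` the group `Γ` acts on `ℚ_ℓ ⊗ H(Y(ℂ), ℚ)`. The *invariant classes* for `ℓ`
are the classes in `ℚ_ℓ ⊗ H^(2j)(Y)` which are fixed by all of `Γ` if the Tate twist is taken into
account. For `Y = X^n` these are the invariants of the (not necessarily connected) `ℓ`-adic monodromy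
group `G_ℓ` of the motive `h(X)`. We fix a prime number `ℓ`, or a set `ι` of prime numbers (for the
stronger form of the conjecture, the set of all prime numbers). A *rational invariant class* is a
rational class which is invariant for all primes in `ι`.

If the algebraic Sato-Tate group exists over `ℚ` (for all primes in `ι` at once) then the invariant
classes for `ℓ` on all powers of `X` are linear combinations of rational invariant classes, with
coefficients in `ℚ_ℓ`; if `G_ℓ` is reductive the converse is true, since a reductive group is
determined by its invariants.

Let `a(Y)` be the rank of the intersection form on the rational invariant classes on `Y`, and `t(Y)`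
the dimension of the space of the invariant classes for the prime `i` in `ι` on `Y`. Let `X` be a
variety with `b = dim H(X) > 0` and `m ≥ 1`.

**Theorem.**

1. If `a(X^(2m)) = t(X^(2m))` then all invariant classes for `i` on `X^(2m)` are linear combinations
   of rational invariant classes.
2. For `r ≥ 1`, if `(r - 1) a(X^(2m)) < t(X^(2m))` on the single variety `X^(2m)`, then for ALL `n` and
   for ALL varieties `Z`
   `a(X^(n+1) × Z × Z) ≤ (1 / r + C log (n + 2) / (n + 1)) t(X^(n+1) × Z × Z)`
   with the explicit constant `C = (16 m b ^ (4 m + 2)) ^ (b ² + 2)`.

So, if the algebraic Sato-Tate conjecture fails for `h(X)` and the monodromy groups are reductive,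
then there is a prime in `ι` and a natural number `m` such that about one half of the invariant classes
on ALL varieties `X^(n+1) × Z × Z` is not accounted for by rational invariant classes, with the
explicit bound in 2 (`r = 2`); and the defect is quantized: if less than `1 / (r - 1)` is accounted for
on `X^(2m)`, then at most `1 / r`, up to `C log (n + 2) / (n + 1)`, on all these varieties.

In contrast to the case of the identity components (hand-ins for MP_e965d0_ag) the proportion does
not need to tend to zero here, since the groups may have different finite groups of components.
-/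

open CategoryTheory AlgebraicGeometry

universe u

namespace Pool.Agent.Results.MP_92d903_ag.RationalInvariantsH24

open Module
open Pool.Agent.H914 Pool.Agent.H914.VarClass Pool.Agent.H914.VarClass.Obj
  Pool.Agent.H914.WeilCohomology
open Pool.Agent.Y133.Half (pw)
open Pool.Agent.E8helper24.QF (GalAction)
open Pool.Agent.E8helper24.INF.Drb (rankBy)
open Pool.Agent.E8helper24.HP

variable {k : Type u} [Field k] {𝒱 : VarClass k} {ops : CycleOps 𝒱}

/-- **The explicit quantization law for the rational invariant classes.** -/
theorem result {ι Γ : Type} [Group Γ] {W : WeilCohomology.{u, 0} ops} {L : ι → Type}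
    [∀ i, Field (L i)] [∀ i, Algebra W.K (L i)] (A : ∀ i, GalAction Γ W (L i)) (i : ι)
    (X : 𝒱.Obj) (hX : 0 < finrank W.K (W.H X)) (m : ℕ) (hm : 1 ≤ m) :
    (InvOverQ A i (pw X (2 * m - 1)) ∨
      rankBy (IsRatInv A) (pw X (2 * m - 1)) < invDim (A i) (pw X (2 * m - 1))) ∧
    ∀ r : ℕ, 1 ≤ r →
      (r - 1) * rankBy (IsRatInv A) (pw X (2 * m - 1)) < invDim (A i) (pw X (2 * m - 1)) →
      RatOneOver A i X r (constant (finrank W.K (W.H X)) m) :=
  ⟨Exact.defined_or A i _, fun _ hr hlt => Exact.common_quant A i hX hm hr hlt⟩

end Pool.Agent.Results.MP_92d903_ag.RationalInvariantsH24
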